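import Pool.Agent.Helper378.PD.Upper
import Pool.Agent.Helper378.PD.Final
set_option autoImplicit false
namespace Pool.Agent.Results.MP_843c79_co.Exponential
open Pool.Agent.Helper378.PD

theorem result : ∃ f : ℕ → ℕ,
    (∀ k, IsGreatest {n : ℕ | ∃ H : Finset ℝ, H.card = k ∧ (∀ h ∈ H, 0 < h) ∧
      IsLeast {m : ℕ | ∃ col : EuclideanSpace ℝ (Fin 2) → Fin m,
        ∀ x y, dist x y ∈ H → col x ≠ col y} n} (f k)) ∧
    ∀ k, 2 ^ k ≤ f k ∧ f k ≤ 7 ^ k := by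
  have key : ∀ k : ℕ, ∃ n : ℕ, IsGreatest {n : ℕ | ∃ H : Finset ℝ, H.card = k ∧ (∀ h ∈ H, 0 < h) ∧
      IsLeast {m : ℕ | ∃ col : EuclideanSpace ℝ (Fin 2) → Fin m,
        ∀ x y, dist x y ∈ H → col x ≠ col y} n} n ∧ 2 ^ k ≤ n ∧ n ≤ 7 ^ k := by
    intro k
    -- every admissible set has a least number of colours, at most 7 ^ k
    have hleast : ∀ H : Finset ℝ, H.card = k → (∀ h ∈ H, 0 < h) → ∃ n ≤ 7 ^ k,
        IsLeast {m : ℕ | ∃ col : EuclideanSpace ℝ (Fin 2) → Fin m,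
          ∀ x y, dist x y ∈ H → col x ≠ col y} n := by
      intro H hk hH
      obtain ⟨col, hcol⟩ := upper H hH
      have hc : Fintype.card (Fin H.card → Fin 7) = 7 ^ k := by simp [hk]
      have hmem : (7 ^ k) ∈ {m : ℕ | ∃ col : EuclideanSpace ℝ (Fin 2) → Fin m,
          ∀ x y, dist x y ∈ H → col x ≠ col y} := by
        refine ⟨fun x => (Fintype.equivFinOfCardEq hc) (col x), fun x y hxy he => hcol x y hxy ?_⟩
        exact (Fintype.equivFinOfCardEq hc).injective he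
      refine ⟨sInf {m : ℕ | ∃ col : EuclideanSpace ℝ (Fin 2) → Fin m,
        ∀ x y, dist x y ∈ H → col x ≠ col y}, Nat.sInf_le hmem, Nat.sInf_mem ⟨_, hmem⟩, ?_⟩
      intro m hm
      exact Nat.sInf_le hm
    obtain ⟨H, hk, hH, hlow⟩ := final k
    obtain ⟨n, hn, hn'⟩ := hleast H hk hH
    have hn2 : 2 ^ k ≤ n := by
      obtain ⟨col, hcol⟩ := hn'.1
      exact hlow n col hcol
    have hb : ∀ n' ∈ {n : ℕ | ∃ H : Finset ℝ, H.card = k ∧ (∀ h ∈ H, 0 < h) ∧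
        IsLeast {m : ℕ | ∃ col : EuclideanSpace ℝ (Fin 2) → Fin m,
          ∀ x y, dist x y ∈ H → col x ≠ col y} n}, n' ≤ 7 ^ k := by
      rintro n' ⟨H', hk', hH', hl'⟩
      obtain ⟨n'', h1, h2⟩ := hleast H' hk' hH'
      rw [hl'.unique h2]
      exact h1
    have hne : ({n : ℕ | ∃ H : Finset ℝ, H.card = k ∧ (∀ h ∈ H, 0 < h) ∧
        IsLeast {m : ℕ | ∃ col : EuclideanSpace ℝ (Fin 2) → Fin m,
          ∀ x y, dist x y ∈ H → col x ≠ col y} n}).Nonempty := ⟨n, H, hk, hH, hn'⟩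
    have hbdd : BddAbove {n : ℕ | ∃ H : Finset ℝ, H.card = k ∧ (∀ h ∈ H, 0 < h) ∧
        IsLeast {m : ℕ | ∃ col : EuclideanSpace ℝ (Fin 2) → Fin m,
          ∀ x y, dist x y ∈ H → col x ≠ col y} n} := ⟨7 ^ k, hb⟩
    refine ⟨sSup {n : ℕ | ∃ H : Finset ℝ, H.card = k ∧ (∀ h ∈ H, 0 < h) ∧
        IsLeast {m : ℕ | ∃ col : EuclideanSpace ℝ (Fin 2) → Fin m,
          ∀ x y, dist x y ∈ H → col x ≠ col y} n}, ⟨Nat.sSup_mem hne hbdd, fun m hm => le_csSup hbdd hm⟩, ?_, ?_⟩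
    · exact hn2.trans (le_csSup hbdd ⟨H, hk, hH, hn'⟩)
    · exact hb _ (Nat.sSup_mem hne hbdd)
  choose f hf using key
  exact ⟨f, fun k => (hf k).1, fun k => (hf k).2⟩

end Pool.Agent.Results.MP_843c79_co.Exponential
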